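import Mathlib
import Pool.Agent.Helper82.IW.Goals

/-! IW packet K3 (MP_f7b570_an): the vector Kato inequality. -/

open Complex MeasureTheory Set Filter Topology
open scoped ContDiff ComplexConjugate

namespace Pool.Agent.Helper32.IW

open Pool.Agent.Helper82.IW

noncomputable section

namespace K3pf

lemma isCompact_Q : IsCompact Q := IsCompact.reProdIm isCompact_Icc isCompact_Icc

lemma intQ {E : Type*} [NormedAddCommGroup E] {f : ℂ → E} (hf : Continuous f) :
    IntegrableOn f Q := hf.continuousOn.integrableOn_compact isCompact_Q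

lemma cont_fd {E : Type*} [NormedAddCommGroup E] [NormedSpace ℝ E] {f : ℂ → E}
    (hf : ContDiff ℝ ∞ f) (v : ℂ) : Continuous (fun z => fderiv ℝ f z v) :=
  (hf.continuous_fderiv (by simp)).clm_apply continuous_const

lemma cont_dx {E : Type*} [NormedAddCommGroup E] [NormedSpace ℝ E] {f : ℂ → E}
    (hf : SP f) : Continuous (dx f) := cont_fd hf.smooth 1

lemma cont_dy {E : Type*} [NormedAddCommGroup E] [NormedSpace ℝ E] {f : ℂ → E}
    (hf : SP f) : Continuous (dy f) := cont_fd hf.smooth I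

lemma fd_ofReal (a : ℂ → ℝ) (z v : ℂ) (ha : DifferentiableAt ℝ a z) :
    fderiv ℝ (fun w => (a w : ℂ)) z v = ((fderiv ℝ a z v : ℝ) : ℂ) := by
  have h : HasFDerivAt (fun w => (a w : ℂ)) (Complex.ofRealCLM.comp (fderiv ℝ a z)) z :=
    Complex.ofRealCLM.hasFDerivAt.comp z ha.hasFDerivAt
  rw [h.fderiv]; rfl

lemma fd_smul (a : ℂ → ℝ) (H : ℂ → ℂ) (z v : ℂ) (ha : DifferentiableAt ℝ a z)
    (hH : DifferentiableAt ℝ H z) :
    fderiv ℝ (fun w => (a w : ℂ) * H w) z v =
      ((fderiv ℝ a z v : ℝ) : ℂ) * H z + (a z : ℂ) * fderiv ℝ H z v := by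
  have hac : DifferentiableAt ℝ (fun w => (a w : ℂ)) z :=
    Complex.ofRealCLM.differentiableAt.comp z ha
  rw [fderiv_fun_mul hac hH]
  simp only [_root_.add_apply, _root_.smul_apply, smul_eq_mul]
  rw [fd_ofReal a z v ha]; ring

/-- derivative of `(1 - τ c) / R` -/
lemma fd_coef (τ c R : ℂ → ℝ) (z v : ℂ) (hτ : DifferentiableAt ℝ τ z)
    (hc : DifferentiableAt ℝ c z) (hR : DifferentiableAt ℝ R z) (hR0 : R z ≠ 0) :
    fderiv ℝ (fun w => (1 - τ w * c w) / R w) z v =
      -(fderiv ℝ τ z v * c z + τ z * fderiv ℝ c z v) / R z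
        - (1 - τ z * c z) * fderiv ℝ R z v / R z ^ 2 := by
  have h1 : HasFDerivAt (fun w => 1 - τ w * c w) (-(τ z • fderiv ℝ c z + c z • fderiv ℝ τ z)) z := by
    have := (hτ.hasFDerivAt.mul hc.hasFDerivAt).const_sub 1
    exact this
  have h2 : HasFDerivAt (fun w => (R w)⁻¹) ((-(R z ^ 2)⁻¹) • fderiv ℝ R z) z :=
    (hasDerivAt_inv hR0).comp_hasFDerivAt z hR.hasFDerivAt
  have h3 : HasFDerivAt (fun w => (1 - τ w * c w) / R w)
      ((1 - τ z * c z) • ((-(R z ^ 2)⁻¹) • fderiv ℝ R z) +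
        (R z)⁻¹ • (-(τ z • fderiv ℝ c z + c z • fderiv ℝ τ z))) z := by
    have := h1.mul h2
    simp only [div_eq_mul_inv]
    exact this
  rw [h3.fderiv]
  simp only [_root_.smul_apply, _root_.neg_apply, _root_.add_apply, smul_eq_mul]
  field_simp
  ring

/-- the pointwise identity in one direction -/
lemma dir_identity (τ c R : ℂ → ℝ) (H : ℂ → ℂ) (z v : ℂ) (t : ℝ) (hτ : DifferentiableAt ℝ τ z)
    (hc : DifferentiableAt ℝ c z) (hR : DifferentiableAt ℝ R z) (hH : DifferentiableAt ℝ H z)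
    (hR0 : 0 < R z) (hRd : fderiv ℝ R z v = (conj (H z) * fderiv ℝ H z v).re / R z)
    (hτd : fderiv ℝ τ z v = -t * fderiv ℝ R z v) :
    (conj (fderiv ℝ (fun w => (((1 - τ w * c w) / R w : ℝ) : ℂ) * H w) z v) * fderiv ℝ H z v).re =
      (1 - τ z * c z) * ((‖fderiv ℝ H z v‖ ^ 2 - (fderiv ℝ R z v) ^ 2) / R z)
        + c z * t * (fderiv ℝ R z v) ^ 2 - τ z * (fderiv ℝ c z v * fderiv ℝ R z v) := by
  have hcoef : DifferentiableAt ℝ (fun w => (1 - τ w * c w) / R w) z :=
    by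
      simp only [div_eq_mul_inv]
      exact ((hτ.mul hc).const_sub 1).mul (hR.inv hR0.ne')
  rw [fd_smul (fun w => (1 - τ w * c w) / R w) H z v hcoef hH, fd_coef τ c R z v hτ hc hR hR0.ne']
  set hv := fderiv ℝ H z v with hhv
  set rv := fderiv ℝ R z v with hrv
  set cv := fderiv ℝ c z v with hcv
  set tv := fderiv ℝ τ z v with htv
  have h1 : (conj (H z) * hv).re = rv * R z := by rw [hRd]; field_simp
  have h2 : (conj hv * hv).re = ‖hv‖ ^ 2 := by
    rw [mul_comm, Complex.mul_conj, Complex.ofReal_re, Complex.normSq_eq_norm_sq]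
  have e : ∀ x y : ℝ, (conj ((x : ℂ) * H z + (y : ℂ) * hv) * hv).re =
      x * (conj (H z) * hv).re + y * (conj hv * hv).re := by
    intro x y
    rw [map_add, map_mul, map_mul, Complex.conj_ofReal, Complex.conj_ofReal, add_mul, Complex.add_re,
      mul_assoc, mul_assoc, Complex.re_ofReal_mul, Complex.re_ofReal_mul]
  rw [e, h1, h2, hτd]
  field_simp
  ring

lemma ta_mem (ν ρ r : ℝ) (hr : 0 < r) (hρ : 0 < ρ) : 0 ≤ ta ν ρ r ∧ ta ν ρ r ≤ 1 := by
  have h : 0 ≤ (r / ρ) ^ (2 * ν) := Real.rpow_nonneg (div_pos hr hρ).le _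
  unfold ta
  refine ⟨by positivity, ?_⟩
  rw [div_le_one (by linarith)]
  linarith

lemma norm_add_I (a b : ℝ) : ‖(a : ℂ) + I * (b : ℂ)‖ = Real.sqrt (a ^ 2 + b ^ 2) := by
  rw [mul_comm, Complex.norm_add_mul_I]

lemma sum_le_sqrt (a b : ℝ) (ha : 0 ≤ a) (hb : 0 ≤ b) :
    a + b ≤ 1.42 * Real.sqrt (a ^ 2 + b ^ 2) := by
  have h1 : Real.sqrt ((a + b) ^ 2) ≤ Real.sqrt (1.42 ^ 2 * (a ^ 2 + b ^ 2)) := by
    apply Real.sqrt_le_sqrt
    nlinarith [sq_nonneg (a - b), sq_nonneg a, sq_nonneg b]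
  rw [Real.sqrt_sq (by positivity), Real.sqrt_mul (by positivity), Real.sqrt_sq (by norm_num)] at h1
  exact h1

end K3pf

open K3pf

theorem K3 (hSPB : S_SPB) (hIB : S_IB) (hQ : S_QUAD) (hK1 : S_K1) : S_K3 := by
  intro ε ν ρ η K H p c hε hν hρ hη hK hH hp hc hpc hcη hbd
  obtain ⟨hS1, hS2, hS3, hS4⟩ := hSPB
  obtain ⟨hRS, hRx, hRy⟩ := hS2 ε H hε hH
  obtain ⟨hτS, hτx, hτy⟩ := hS3 ε ν ρ H hε hρ hH
  have hBS := hS4 ε ν ρ H c hε hρ hH hc
  obtain ⟨hHx, hHy, hHl, hHz, -, -, -, -⟩ := hS1 H hH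
  set R : ℂ → ℝ := Rr ε H with hRdef
  set τ : ℂ → ℝ := fun z => ta ν ρ (R z) with hτdef
  have hRpos : ∀ z, 0 < R z := fun z => by
    rw [hRdef]; exact Real.sqrt_pos.2 (by positivity)
  have hτ01 : ∀ z, 0 ≤ τ z ∧ τ z ≤ 1 := fun z => ta_mem ν ρ (R z) (hRpos z) hρ
  set t : ℂ → ℝ := fun z => 2 * ν / R z * (τ z * (1 - τ z)) with htdef
  have ht0 : ∀ z, 0 ≤ t z := fun z => by
    have := hτ01 z
    have h1 := hRpos z
    have h2 : 0 ≤ τ z * (1 - τ z) := mul_nonneg this.1 (by linarith)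
    show 0 ≤ 2 * ν / R z * (τ z * (1 - τ z))
    positivity
  have htR : ∀ z, R z * t z ≤ ν / 2 := fun z => by
    have := hτ01 z
    have h1 := hRpos z
    show R z * (2 * ν / R z * (τ z * (1 - τ z))) ≤ ν / 2
    have e : R z * (2 * ν / R z * (τ z * (1 - τ z))) = 2 * ν * (τ z * (1 - τ z)) := by field_simp
    rw [e]
    nlinarith [mul_nonneg hν.le (sq_nonneg (2 * τ z - 1))]
  -- the function q
  set q : ℂ → ℂ := fun z => (τ z : ℂ) * p z with hqdef
  have hqS : SP q := by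
    refine ⟨?_, ?_⟩
    · exact (Complex.ofRealCLM.contDiff.comp hτS.smooth).mul hp.smooth
    · intro z
      have h1 := hτS.per z
      have h2 := hp.per z
      refine ⟨?_, ?_⟩
      · show (τ (z + 1) : ℂ) * p (z + 1) = (τ z : ℂ) * p z
        rw [show τ (z + 1) = τ z from h1.1, h2.1]
      · show (τ (z + I) : ℂ) * p (z + I) = (τ z : ℂ) * p z
        rw [show τ (z + I) = τ z from h1.2, h2.2]
  have hI1 := hIB.1 _ H hBS hH
  have hI2 := hIB.2 q H hqS hH
  have hI3 : ∫ z in Q, ta ν ρ (R z) * (conj (p z) * zb H z).re = ∫ z in Q, (conj (q z) * zb H z).re := by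
    congr 1
    funext z
    rw [hqdef]
    show _ = (conj ((τ z : ℂ) * p z) * zb H z).re
    rw [map_mul, Complex.conj_ofReal, mul_assoc, Complex.re_ofReal_mul]
  rw [hI3, hI2, hI1, neg_neg]
  -- differentiability
  have dR : ∀ z, DifferentiableAt ℝ R z := fun z => (hRS.smooth.differentiable (by simp)) z
  have dτ : ∀ z, DifferentiableAt ℝ τ z := fun z => (hτS.smooth.differentiable (by simp)) z
  have dc : ∀ z, DifferentiableAt ℝ c z := fun z => (hc.smooth.differentiable (by simp)) z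
  have dH : ∀ z, DifferentiableAt ℝ H z := fun z => (hH.smooth.differentiable (by simp)) z
  have dp : ∀ z, DifferentiableAt ℝ p z := fun z => (hp.smooth.differentiable (by simp)) z
  have hBeq : Bf ε ν ρ c H = fun w => (((1 - τ w * c w) / R w : ℝ) : ℂ) * H w := by
    funext w
    show ((1 - ta ν ρ (Rr ε H w) * c w : ℝ) : ℂ) * (H w / (Rr ε H w : ℂ)) = _
    push_cast
    have : (R w : ℂ) ≠ 0 := by exact_mod_cast (hRpos w).ne'
    simp only [hτdef, hRdef]
    ring
  -- the pointwise bound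
  have hpt : ∀ z, -(ν / (4 * η)) * (t z * gr R z) - 5 * K * (τ z * Real.sqrt (gr H z)) ≤
      (conj (dx (Bf ε ν ρ c H) z) * dx H z + conj (dy (Bf ε ν ρ c H) z) * dy H z).re -
      ((conj (dx q z) + I * conj (dy q z)) * (dx H z + I * dy H z)).re := by
    intro z
    have hRz := hRpos z
    have hτz := hτ01 z
    have eR : R z = Real.sqrt (‖H z‖ ^ 2 + ε ^ 2) := rfl
    have hquad := hQ (H z) (dx H z) (dy H z) (R z) ε (τ z) (c z) (t z) η ν ‖p z‖ hε eR hτz.1 hτz.2
      hη (hcη z) (norm_nonneg _) (hpc z) (ht0 z) (htR z)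
    rw [← hRx z, ← hRy z] at hquad
    obtain ⟨hN, hquad⟩ := hquad
    have hX := dir_identity τ c R H z 1 (t z) (dτ z) (dc z) (dR z) (dH z) hRz (hRx z)
      (by have := hτx z; simp only [dx] at this; rw [this]; simp only [htdef]; ring)
    have hY := dir_identity τ c R H z I (t z) (dτ z) (dc z) (dR z) (dH z) hRz (hRy z)
      (by have := hτy z; simp only [dy] at this; rw [this]; simp only [htdef]; ring)
    rw [← hBeq] at hX hY
    have hX' : (conj (dx (Bf ε ν ρ c H) z) * dx H z).re =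
      (1 - τ z * c z) * ((‖dx H z‖ ^ 2 - (dx R z) ^ 2) / R z)
        + c z * t z * (dx R z) ^ 2 - τ z * (dx c z * dx R z) := hX
    have hY' : (conj (dy (Bf ε ν ρ c H) z) * dy H z).re =
      (1 - τ z * c z) * ((‖dy H z‖ ^ 2 - (dy R z) ^ 2) / R z)
        + c z * t z * (dy R z) ^ 2 - τ z * (dy c z * dy R z) := hY
    rw [Complex.add_re, hX', hY']
    -- derivative of q
    have hqx : dx q z = ((-t z * dx R z : ℝ) : ℂ) * p z + (τ z : ℂ) * dx p z := by
      have h := fd_smul τ p z 1 (dτ z) (dp z)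
      have h2 := hτx z
      simp only [dx] at h2 ⊢
      rw [hqdef, h, h2]; simp only [htdef]; push_cast; ring
    have hqy : dy q z = ((-t z * dy R z : ℝ) : ℂ) * p z + (τ z : ℂ) * dy p z := by
      have h := fd_smul τ p z I (dτ z) (dp z)
      have h2 := hτy z
      simp only [dy] at h2 ⊢
      rw [hqdef, h, h2]; simp only [htdef]; push_cast; ring
    have hq : ((conj (dx q z) + I * conj (dy q z)) * (dx H z + I * dy H z)) =
        ((-t z : ℝ) : ℂ) * (((dx R z : ℝ) : ℂ) + I * ((dy R z : ℝ) : ℂ)) * conj (p z) * (dx H z + I * dy H z)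
        + (τ z : ℂ) * ((conj (dx p z) + I * conj (dy p z)) * (dx H z + I * dy H z)) := by
      rw [hqx, hqy]
      simp only [map_add, map_mul, Complex.conj_ofReal]
      push_cast
      ring
    have hn1 : (((-t z : ℝ) : ℂ) * (((dx R z : ℝ) : ℂ) + I * ((dy R z : ℝ) : ℂ)) * conj (p z) *
        (dx H z + I * dy H z)).re ≤
        t z * ‖p z‖ * Real.sqrt (dx R z ^ 2 + dy R z ^ 2) * ‖dx H z + I * dy H z‖ := by
      refine (Complex.re_le_norm _).trans ?_
      rw [norm_mul, norm_mul, norm_mul, norm_add_I, RCLike.norm_conj, Complex.norm_real, norm_neg,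
        Real.norm_of_nonneg (ht0 z)]
      apply le_of_eq; ring
    obtain ⟨b1, b2, b3, b4⟩ := hbd z
    set gH := Real.sqrt (gr H z) with hgH
    have hgH0 : 0 ≤ gH := Real.sqrt_nonneg _
    have hHsum : ‖dx H z‖ + ‖dy H z‖ ≤ 1.42 * gH := by
      rw [hgH]
      exact sum_le_sqrt _ _ (norm_nonneg _) (norm_nonneg _)
    have hRsum : |dx R z| + |dy R z| ≤ 1.42 * gH := by
      refine (sum_le_sqrt _ _ (abs_nonneg _) (abs_nonneg _)).trans ?_
      have : Real.sqrt (|dx R z| ^ 2 + |dy R z| ^ 2) ≤ gH := by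
        rw [hgH, sq_abs, sq_abs]
        apply Real.sqrt_le_sqrt
        show dx R z ^ 2 + dy R z ^ 2 ≤ ‖dx H z‖ ^ 2 + ‖dy H z‖ ^ 2
        linarith
      linarith
    have hHn : ‖dx H z + I * dy H z‖ ≤ 1.42 * gH := by
      refine (norm_add_le _ _).trans ?_
      rw [norm_mul, Complex.norm_I, one_mul]
      exact hHsum
    have hpn : ‖conj (dx p z) + I * conj (dy p z)‖ ≤ 2 * K := by
      refine (norm_add_le _ _).trans ?_
      rw [norm_mul, Complex.norm_I, one_mul, RCLike.norm_conj, RCLike.norm_conj]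
      linarith
    have hn2 : ((τ z : ℂ) * ((conj (dx p z) + I * conj (dy p z)) * (dx H z + I * dy H z))).re ≤
        τ z * (2 * K * (1.42 * gH)) := by
      rw [Complex.re_ofReal_mul]
      refine mul_le_mul_of_nonneg_left ?_ hτz.1
      refine (Complex.re_le_norm _).trans ?_
      rw [norm_mul]
      gcongr
    have hn3 : dx c z * dx R z + dy c z * dy R z ≤ K * (1.42 * gH) := by
      calc dx c z * dx R z + dy c z * dy R z ≤ |dx c z| * |dx R z| + |dy c z| * |dy R z| := by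
            rw [← abs_mul, ← abs_mul]
            exact add_le_add (le_abs_self _) (le_abs_self _)
        _ ≤ K * |dx R z| + K * |dy R z| := by gcongr
        _ = K * (|dx R z| + |dy R z|) := by ring
        _ ≤ K * (1.42 * gH) := by gcongr
    have hn4 : τ z * (dx c z * dx R z + dy c z * dy R z) ≤ τ z * (K * (1.42 * gH)) :=
      mul_le_mul_of_nonneg_left hn3 hτz.1
    have hKg : 0 ≤ τ z * (K * gH) := by have := hτz.1; positivity
    have egR : gr R z = dx R z ^ 2 + dy R z ^ 2 := by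
      show ‖dx R z‖ ^ 2 + ‖dy R z‖ ^ 2 = _
      rw [Real.norm_eq_abs, Real.norm_eq_abs, sq_abs, sq_abs]
    rw [hq, Complex.add_re, egR]
    have e1 : (1 - τ z * c z) * ((‖dx H z‖ ^ 2 - dx R z ^ 2) / R z) +
        (1 - τ z * c z) * ((‖dy H z‖ ^ 2 - dy R z ^ 2) / R z) =
        (1 - τ z * c z) * ((‖dx H z‖ ^ 2 + ‖dy H z‖ ^ 2 - (dx R z ^ 2 + dy R z ^ 2)) / R z) := by
      ring
    linarith [hquad, hn1, hn2, hn4, hKg, e1]
  -- integrate
  have cHx : Continuous (dx H) := cont_dx hH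
  have cHy : Continuous (dy H) := cont_dy hH
  have cBx : Continuous (dx (Bf ε ν ρ c H)) := cont_dx hBS
  have cBy : Continuous (dy (Bf ε ν ρ c H)) := cont_dy hBS
  have cqx : Continuous (dx q) := cont_dx hqS
  have cqy : Continuous (dy q) := cont_dy hqS
  have cRx : Continuous (dx R) := cont_dx hRS
  have cRy : Continuous (dy R) := cont_dy hRS
  have cR : Continuous R := hRS.smooth.continuous
  have cτ : Continuous τ := hτS.smooth.continuous
  have cgrR : Continuous (gr R) := by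
    show Continuous (fun z => ‖dx R z‖ ^ 2 + ‖dy R z‖ ^ 2)
    fun_prop
  have cgrH : Continuous (gr H) := by
    show Continuous (fun z => ‖dx H z‖ ^ 2 + ‖dy H z‖ ^ 2)
    fun_prop
  have ct : Continuous t := by
    show Continuous (fun z => 2 * ν / R z * (τ z * (1 - τ z)))
    exact (continuous_const.div cR (fun z => (hRpos z).ne')).mul (cτ.mul (continuous_const.sub cτ))
  have cconj : ∀ {f : ℂ → ℂ}, Continuous f → Continuous (fun z => conj (f z)) := fun hf =>
    Complex.continuous_conj.comp hf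
  have i1 : IntegrableOn (fun z => (conj (dx (Bf ε ν ρ c H) z) * dx H z +
      conj (dy (Bf ε ν ρ c H) z) * dy H z).re) Q :=
    intQ (Complex.continuous_re.comp (((cconj cBx).mul cHx).add ((cconj cBy).mul cHy)))
  have i2 : IntegrableOn (fun z => ((conj (dx q z) + I * conj (dy q z)) * (dx H z + I * dy H z)).re) Q :=
    intQ (Complex.continuous_re.comp (((cconj cqx).add (continuous_const.mul (cconj cqy))).mul
      (cHx.add (continuous_const.mul cHy))))
  have i3 : IntegrableOn (fun z => t z * gr R z) Q := intQ (ct.mul cgrR)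
  have i4 : IntegrableOn (fun z => τ z * Real.sqrt (gr H z)) Q :=
    intQ (cτ.mul (Real.continuous_sqrt.comp cgrH))
  have hmono := integral_mono (μ := volume.restrict Q)
    ((i3.const_mul (-(ν / (4 * η)))).sub (i4.const_mul (5 * K))) (i1.sub i2) hpt
  simp only [Pi.sub_apply] at hmono
  rw [integral_sub (i3.const_mul _) (i4.const_mul _), integral_const_mul, integral_const_mul] at hmono
  have hsub := integral_sub i1 i2
  have hK1' := hK1 ε ν ρ H hε hν hρ hH
  have hK1'' : ∫ z in Q, t z * gr R z ≤ ∫ z in Q, 2 * ‖hl H z‖ := hK1'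
  have hcoef : 0 ≤ ν / (4 * η) := by positivity
  have h5 : -(ν / (4 * η)) * (∫ z in Q, 2 * ‖hl H z‖) ≤ -(ν / (4 * η)) * ∫ z in Q, t z * gr R z := by
    nlinarith [mul_le_mul_of_nonneg_left hK1'' hcoef]
  have hmono' : -(ν / (4 * η)) * (∫ z in Q, t z * gr R z) -
      5 * K * (∫ z in Q, τ z * Real.sqrt (gr H z)) ≤
      (∫ z in Q, (conj (dx (Bf ε ν ρ c H) z) * dx H z + conj (dy (Bf ε ν ρ c H) z) * dy H z).re) -
      ∫ z in Q, ((conj (dx q z) + I * conj (dy q z)) * (dx H z + I * dy H z)).re := by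
    rw [← hsub]; exact hmono
  have h6 : (∫ z in Q, ta ν ρ (R z) * Real.sqrt (gr H z)) = ∫ z in Q, τ z * Real.sqrt (gr H z) := rfl
  rw [h6]
  linarith

end

end Pool.Agent.Helper32.IW
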