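import Mathlib
import Pool.Agent.Helper82.IW.Goals

/-! IW packet MO3 (MP_f7b570_an): convolution with the kernel is a contraction of `L²`. -/

open Complex MeasureTheory Set Filter Topology
open scoped ContDiff ComplexConjugate

namespace Pool.Agent.Helper32.IW

open Pool.Agent.Helper82.IW

noncomputable section

namespace MO3pf

lemma isCompact_Q : IsCompact Q := IsCompact.reProdIm isCompact_Icc isCompact_Icc

lemma intQ {E : Type*} [NormedAddCommGroup E] {f : ℂ → E} (hf : Continuous f) :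
    IntegrableOn f Q := hf.continuousOn.integrableOn_compact isCompact_Q

lemma cont_k1 (n : ℕ) : Continuous (k1 n) := by
  unfold k1; fun_prop

lemma cont_kr (n : ℕ) : Continuous (kr n) := by
  unfold kr
  exact ((cont_k1 n).comp Complex.continuous_re).mul ((cont_k1 n).comp Complex.continuous_im)

lemma int_kr (hKER : S_KER) (n : ℕ) : ∫ z in Q, kr n z = 1 := by
  have h1 : ∫ z in Q, kr n z = ∫ y in (Icc (0 : ℝ) 1) ×ˢ (Icc (0 : ℝ) 1), k1 n y.1 * k1 n y.2 := by
    have h := Complex.volume_preserving_equiv_real_prod.setIntegral_preimage_emb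
      Complex.measurableEquivRealProd.measurableEmbedding
      (fun y : ℝ × ℝ => k1 n y.1 * k1 n y.2) ((Icc (0 : ℝ) 1) ×ˢ (Icc (0 : ℝ) 1))
    rw [← h]
    rfl
  have h2 : ∫ t in Icc (0 : ℝ) 1, k1 n t = 1 := by
    rw [integral_Icc_eq_integral_Ioc, ← intervalIntegral.integral_of_le zero_le_one]
    exact hKER.2.2.2.1 n
  rw [h1, Measure.volume_eq_prod, setIntegral_prod_mul, h2, mul_one]

lemma kr_per (hKER : S_KER) (n : ℕ) : Per (kr n) := by
  intro z
  have h := hKER.2.1 n
  refine ⟨?_, ?_⟩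
  · simp only [kr, Complex.add_re, Complex.one_re, Complex.add_im, Complex.one_im, add_zero, h]
  · simp only [kr, Complex.add_re, Complex.I_re, Complex.add_im, Complex.I_im, add_zero, h]

lemma kr_even (hKER : S_KER) (n : ℕ) (z : ℂ) : kr n (-z) = kr n z := by
  have h := hKER.2.2.1 n
  simp only [kr, Complex.neg_re, Complex.neg_im, h]

lemma kr_nonneg (hKER : S_KER) (n : ℕ) (z : ℂ) : 0 ≤ kr n z :=
  mul_nonneg (hKER.1 n _) (hKER.1 n _)

/-- mass one in `z` -/
lemma mass_z (hKER : S_KER) (hINT : S_INT) (n : ℕ) (w : ℂ) : ∫ z in Q, kr n (z - w) = 1 := by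
  have h := hINT.2.2.2.1 (kr n) (cont_kr n) (kr_per hKER n) (-w)
  rw [int_kr hKER n] at h
  simpa only [sub_eq_add_neg] using h

/-- mass one in `w` -/
lemma mass_w (hKER : S_KER) (hINT : S_INT) (n : ℕ) (z : ℂ) : ∫ w in Q, kr n (z - w) = 1 := by
  rw [← mass_z hKER hINT n z]
  congr 1
  funext w
  rw [← kr_even hKER n (w - z), neg_sub]

/-- Jensen -/
lemma point (hKER : S_KER) (hINT : S_INT) (n : ℕ) (f : ℂ → ℂ) (hf : Continuous f) (z : ℂ) :
    ‖Mo n f z‖ ^ 2 ≤ ∫ w in Q, kr n (z - w) * ‖f w‖ ^ 2 := by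
  have ck : Continuous (fun w => kr n (z - w)) := (cont_kr n).comp (continuous_const.sub continuous_id)
  have i0 : IntegrableOn (fun w => kr n (z - w)) Q := intQ ck
  have i1 : IntegrableOn (fun w => kr n (z - w) * ‖f w‖) Q := intQ (ck.mul hf.norm)
  have i2 : IntegrableOn (fun w => kr n (z - w) * ‖f w‖ ^ 2) Q := intQ (ck.mul (hf.norm.pow 2))
  set L := ∫ w in Q, kr n (z - w) * ‖f w‖ with hL
  have h1 : ‖Mo n f z‖ ≤ L := by
    unfold Mo
    refine (norm_integral_le_integral_norm _).trans (le_of_eq ?_)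
    rw [hL]
    congr 1
    funext w
    rw [norm_mul, Complex.norm_real, Real.norm_of_nonneg (kr_nonneg hKER n _)]
  have h2 : 0 ≤ ∫ w in Q, kr n (z - w) * (‖f w‖ - L) ^ 2 :=
    integral_nonneg (fun w => mul_nonneg (kr_nonneg hKER n _) (sq_nonneg _))
  have h3 : ∫ w in Q, kr n (z - w) * (‖f w‖ - L) ^ 2 =
      (∫ w in Q, kr n (z - w) * ‖f w‖ ^ 2) - 2 * L * L + L ^ 2 * 1 := by
    have e : (fun w => kr n (z - w) * (‖f w‖ - L) ^ 2) = fun w =>
        (kr n (z - w) * ‖f w‖ ^ 2 - 2 * L * (kr n (z - w) * ‖f w‖)) + L ^ 2 * kr n (z - w) := by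
      funext w; ring
    have i3 : IntegrableOn (fun w => kr n (z - w) * ‖f w‖ ^ 2 - 2 * L * (kr n (z - w) * ‖f w‖)) Q :=
      i2.sub (i1.const_mul _)
    rw [e, integral_add i3 (i0.const_mul _),
      integral_sub i2 (i1.const_mul _), integral_const_mul, integral_const_mul,
      mass_w hKER hINT n z]
  have h4 : L ^ 2 ≤ ∫ w in Q, kr n (z - w) * ‖f w‖ ^ 2 := by
    rw [h3] at h2; nlinarith
  calc ‖Mo n f z‖ ^ 2 ≤ L ^ 2 := by gcongr
    _ ≤ _ := h4

end MO3pf

open MO3pf

theorem MO3 (hKER : S_KER) (hINT : S_INT) : S_MO3 := by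
  intro n f hf _
  have cu : Continuous (Function.uncurry (fun z w : ℂ => kr n (z - w) * ‖f w‖ ^ 2)) := by
    have h1 : Continuous (fun p : ℂ × ℂ => kr n (p.1 - p.2)) := (cont_kr n).comp (continuous_fst.sub continuous_snd)
    exact h1.mul ((hf.comp continuous_snd).norm.pow 2)
  have cM : Continuous (fun z => Mo n f z) := by
    have h1 : Continuous (Function.uncurry (fun z w : ℂ => (kr n (z - w) : ℂ) * f w)) := by
      have h1 : Continuous (fun p : ℂ × ℂ => (kr n (p.1 - p.2) : ℂ)) :=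
        Complex.continuous_ofReal.comp ((cont_kr n).comp (continuous_fst.sub continuous_snd))
      exact h1.mul (hf.comp continuous_snd)
    exact continuous_parametric_integral_of_continuous h1 isCompact_Q
  have cR : Continuous (fun z => ∫ w in Q, kr n (z - w) * ‖f w‖ ^ 2) :=
    continuous_parametric_integral_of_continuous cu isCompact_Q
  have hmono : ∫ z in Q, ‖Mo n f z‖ ^ 2 ≤ ∫ z in Q, ∫ w in Q, kr n (z - w) * ‖f w‖ ^ 2 :=
    integral_mono (μ := volume.restrict Q) (intQ (cM.norm.pow 2)) (intQ cR)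
      (fun z => point hKER hINT n f hf z)
  refine hmono.trans (le_of_eq ?_)
  rw [integral_integral_swap]
  · congr 1
    funext w
    rw [integral_mul_const, mass_z hKER hINT n w, one_mul]
  · rw [Measure.prod_restrict]
    exact cu.continuousOn.integrableOn_compact (isCompact_Q.prod isCompact_Q)

end

end Pool.Agent.Helper32.IW
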